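import Pool.Agent.W281.Net.Geom

set_option autoImplicit false
open scoped Classical

namespace Pool.Agent.Results.MP_ef7f46_co.StrongNets

/-- Strong nets for points and lines in the plane need `c (1/ε) log (1/ε)` lines: for every small
`ε` there are a finite planar point set `P` and a nonempty set `X` of lines spanned by `P` such
that every subset of `X` that covers all the points of `P` lying on at least `ε |X|` lines of `X`
has at least `c (1/ε) log (1/ε)` lines. -/
theorem result :
    ∃ c : ℝ, 0 < c ∧ ∃ ε₀ : ℝ, 0 < ε₀ ∧ ∀ ε : ℝ, 0 < ε → ε < ε₀ →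
      ∃ P : Finset (EuclideanSpace ℝ (Fin 2)), 2 ≤ P.card ∧
        ∃ X : Finset (AffineSubspace ℝ (EuclideanSpace ℝ (Fin 2))), X.Nonempty ∧
          X ⊆ P.offDiag.image
            (fun x : EuclideanSpace ℝ (Fin 2) × EuclideanSpace ℝ (Fin 2) =>
              affineSpan ℝ ({x.1, x.2} : Set (EuclideanSpace ℝ (Fin 2)))) ∧
          ∀ N ⊆ X,
            (∀ p ∈ P, ε * (X.card : ℝ) ≤ ((X.filter (fun l => p ∈ l)).card : ℝ) →
              ∃ l ∈ N, p ∈ l) →
            c * ((1 / ε) * Real.log (1 / ε)) ≤ (N.card : ℝ) :=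
  Pool.Agent.W281.Net.main

end Pool.Agent.Results.MP_ef7f46_co.StrongNets
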